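import Pool.Agent.R684.VG.Stm

set_option autoImplicit false

/-!
# Derivations of a finitely presented group into permutation modules: lower bound by the deficiency
-/

namespace Pool.Agent.R369.GPZD

open Pool.Agent.R684.VG

/-- the statement -/
def S_ZD : Prop := ∀ (X : Type) [Fintype X] (rels : Finset (FreeGroup X))
  (H : Subgroup (PresentedGroup (rels : Set (FreeGroup X)))) [H.FiniteIndex],
  Fintype.card X * H.index ≤
    Module.finrank ℂ (Pool.Agent.R684.VG.Zp (PresentedGroup (rels : Set (FreeGroup X))) H) + rels.card * H.index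

section act

variable {L Q : Type} [Group L] [MulAction L Q]

/-- translation of functions -/
def tr1 (g : L) : MulAut (Multiplicative (Q → ℂ)) where
  toFun u := Multiplicative.ofAdd fun x => Multiplicative.toAdd u (g⁻¹ • x)
  invFun u := Multiplicative.ofAdd fun x => Multiplicative.toAdd u (g • x)
  left_inv u := by
    apply Multiplicative.toAdd.injective
    funext x
    simp
  right_inv u := by
    apply Multiplicative.toAdd.injective
    funext x
    simp
  map_mul' u v := rfl

/-- the action on functions -/
def act : L →* MulAut (Multiplicative (Q → ℂ)) where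
  toFun := tr1
  map_one' := by
    apply MulEquiv.ext
    intro u
    apply Multiplicative.toAdd.injective
    funext x
    simp [tr1]
  map_mul' g h := by
    apply MulEquiv.ext
    intro u
    apply Multiplicative.toAdd.injective
    funext x
    simp [tr1, mul_smul]

theorem cocy {G : Type} [Group G] (h : G →* (Multiplicative (Q → ℂ)) ⋊[act (L := L) (Q := Q)] L)
    (a b : G) (x : Q) : Multiplicative.toAdd (h (a * b)).left x =
      Multiplicative.toAdd (h a).left x + Multiplicative.toAdd (h b).left ((h a).right⁻¹ • x) := by
  rw [map_mul, SemidirectProduct.mul_left]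
  rfl

end act

section free

variable {X : Type} (R : Set (FreeGroup X)) {Q : Type} [MulAction (PresentedGroup R) Q]

/-- values on the generators -/
def gen (e : X → Q → ℂ) (x : X) :
    (Multiplicative (Q → ℂ)) ⋊[act (L := PresentedGroup R) (Q := Q)] (PresentedGroup R) :=
  ⟨Multiplicative.ofAdd (e x), PresentedGroup.of x⟩

/-- the homomorphism with the values `e` on the generators -/
def hF (e : X → Q → ℂ) : FreeGroup X →*
    (Multiplicative (Q → ℂ)) ⋊[act (L := PresentedGroup R) (Q := Q)] (PresentedGroup R) :=
  FreeGroup.lift (gen R e)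

theorem hF_right (e : X → Q → ℂ) (w : FreeGroup X) :
    (hF R e w).right = PresentedGroup.mk R w := by
  have h : (SemidirectProduct.rightHom).comp (hF R e) = PresentedGroup.mk R := by
    apply FreeGroup.ext_hom
    intro x
    simp only [MonoidHom.comp_apply, hF, FreeGroup.lift_apply_of]
    rfl
  exact DFunLike.congr_fun h w

/-- the derivation of the free group -/
def ce (e : X → Q → ℂ) (w : FreeGroup X) : Q → ℂ := Multiplicative.toAdd (hF R e w).left

theorem ce_mul (e : X → Q → ℂ) (v w : FreeGroup X) (x : Q) :
    ce R e (v * w) x = ce R e v x + ce R e w ((PresentedGroup.mk R v)⁻¹ • x) := by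
  unfold ce
  rw [cocy, hF_right]

theorem ce_of (e : X → Q → ℂ) (y : X) : ce R e (FreeGroup.of y) = e y := by
  unfold ce hF
  rw [FreeGroup.lift_apply_of]
  rfl

theorem ce_one (e : X → Q → ℂ) (x : Q) : ce R e 1 x = 0 := by
  unfold ce
  rw [map_one]
  rfl

theorem ce_inv (e : X → Q → ℂ) (w : FreeGroup X) (x : Q) :
    ce R e w⁻¹ x = - ce R e w (PresentedGroup.mk R w • x) := by
  have h := ce_mul R e w⁻¹ w x
  rw [inv_mul_cancel, ce_one, map_inv, inv_inv] at h
  exact eq_neg_of_add_eq_zero_left h.symm

theorem ce_lin (w : FreeGroup X) : ∀ (e e' : X → Q → ℂ) (c : ℂ) (x : Q),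
    ce R (e + c • e') w x = ce R e w x + c * ce R e' w x := by
  refine FreeGroup.induction_on w ?_ ?_ ?_ ?_
  · intro e e' c x
    simp [ce_one]
  · intro y e e' c x
    rw [ce_of, ce_of, ce_of]
    simp
  · intro y ih e e' c x
    rw [ce_inv, ce_inv, ce_inv, ih]
    ring
  · intro v w hv hw e e' c x
    rw [ce_mul, ce_mul, ce_mul, hv, hw]
    ring

/-- `ce` as a linear map -/
def cl (w : FreeGroup X) : (X → Q → ℂ) →ₗ[ℂ] (Q → ℂ) where
  toFun e := ce R e w
  map_add' e e' := by
    funext x
    have h := ce_lin R w e e' 1 x
    simpa using h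
  map_smul' c e := by
    funext x
    have h0 := ce_lin R w (0 : X → Q → ℂ) 0 1 x
    have h := ce_lin R w (0 : X → Q → ℂ) e c x
    simp only [smul_zero, add_zero, one_mul] at h0
    have h1 : ce R (0 : X → Q → ℂ) w x = 0 := by
      linear_combination -h0
    rw [h1] at h
    simpa using h

theorem exists_der (e : X → Q → ℂ) (he : ∀ r ∈ R, ce R e r = 0) :
    ∃ c : PresentedGroup R → Q → ℂ,
      (∀ (g h : PresentedGroup R) (x : Q), c (g * h) x = c g x + c h (g⁻¹ • x)) ∧
      ∀ y : X, c (PresentedGroup.of y) = e y := by
  have hrel : ∀ r ∈ R, FreeGroup.lift (gen R e) r = 1 := by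
    intro r hr
    apply SemidirectProduct.ext
    · apply Multiplicative.toAdd.injective
      exact he r hr
    · have h := hF_right R e r
      unfold hF at h
      rw [h, PresentedGroup.one_of_mem hr]
      rfl
  let h := PresentedGroup.toGroup hrel
  have hr : ∀ g, (h g).right = g := by
    have h1 : (SemidirectProduct.rightHom).comp h = MonoidHom.id (PresentedGroup R) := by
      apply PresentedGroup.ext
      intro x
      change (h (PresentedGroup.of x)).right = PresentedGroup.of x
      rw [PresentedGroup.toGroup.of]
      rfl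
    exact fun g => DFunLike.congr_fun h1 g
  refine ⟨fun g => Multiplicative.toAdd (h g).left, ?_, ?_⟩
  · intro g k x
    have := cocy h g k x
    rw [hr] at this
    exact this
  · intro y
    change Multiplicative.toAdd (h (PresentedGroup.of y)).left = e y
    rw [PresentedGroup.toGroup.of]
    rfl

end free

theorem t_ZD : S_ZD := by
  intro X _ rels H _
  have : Fintype (PresentedGroup (rels : Set (FreeGroup X)) ⧸ H) :=
    Subgroup.fintypeQuotientOfFiniteIndex
  have hidx : H.index = Fintype.card (PresentedGroup (rels : Set (FreeGroup X)) ⧸ H) := by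
    rw [Subgroup.index_eq_card, Nat.card_eq_fintype_card]
  let R : Zp (PresentedGroup (rels : Set (FreeGroup X))) H →ₗ[ℂ]
      (X → (PresentedGroup (rels : Set (FreeGroup X)) ⧸ H) → ℂ) :=
    { toFun := fun c x => c.1 (PresentedGroup.of x)
      map_add' := by intro c d; rfl
      map_smul' := by intro a c; rfl }
  have hR : Function.Injective R := by
    rw [← LinearMap.ker_eq_bot, LinearMap.ker_eq_bot']
    intro c hc
    have hgen : ∀ x, c.1 (PresentedGroup.of x) = 0 := fun x => congrFun hc x
    have hd := c.2
    have h1 : c.1 1 = 0 := by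
      funext x
      have := hd 1 1 x
      simpa using this
    have hall : ∀ g : PresentedGroup (rels : Set (FreeGroup X)), c.1 g = 0 := by
      intro g
      have hg : g ∈ Subgroup.closure (Set.range
          (PresentedGroup.of (rels := (rels : Set (FreeGroup X))))) := by
        rw [PresentedGroup.closure_range_of]; trivial
      induction hg using Subgroup.closure_induction with
      | mem y hy =>
        obtain ⟨x, rfl⟩ := hy
        exact hgen x
      | one => exact h1
      | mul y z _ _ hy hz =>
        funext x
        rw [hd y z x, hy, hz]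
        simp
      | inv y _ hy =>
        funext x
        have := hd y y⁻¹ (y • x)
        rw [mul_inv_cancel, h1, hy, inv_smul_smul] at this
        simpa using this.symm
    apply Subtype.ext
    funext g
    rw [hall g]
    rfl
  have fd : FiniteDimensional ℂ (Zp (PresentedGroup (rels : Set (FreeGroup X))) H) :=
    FiniteDimensional.of_injective R hR
  let Φ : (X → (PresentedGroup (rels : Set (FreeGroup X)) ⧸ H) → ℂ) →ₗ[ℂ]
      (rels → (PresentedGroup (rels : Set (FreeGroup X)) ⧸ H) → ℂ) :=
    LinearMap.pi fun r => cl (rels : Set (FreeGroup X)) r.1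
  have hker : LinearMap.ker Φ ≤ LinearMap.range R := by
    intro e he
    rw [LinearMap.mem_ker] at he
    obtain ⟨c, hc1, hc2⟩ := exists_der (rels : Set (FreeGroup X)) e (fun r hr =>
      congrFun he ⟨r, Finset.mem_coe.1 hr⟩)
    refine ⟨⟨c, hc1⟩, ?_⟩
    funext x
    exact hc2 x
  have h1 := LinearMap.finrank_range_add_finrank_ker Φ
  have h2 : Module.finrank ℂ (LinearMap.range Φ) ≤
      Module.finrank ℂ (rels → (PresentedGroup (rels : Set (FreeGroup X)) ⧸ H) → ℂ) :=
    Submodule.finrank_le _
  have h3 : Module.finrank ℂ (LinearMap.ker Φ) ≤ Module.finrank ℂ (LinearMap.range R) :=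
    Submodule.finrank_mono hker
  have h4 : Module.finrank ℂ (LinearMap.range R) ≤
      Module.finrank ℂ (Zp (PresentedGroup (rels : Set (FreeGroup X))) H) :=
    LinearMap.finrank_range_le R
  have e1 : Module.finrank ℂ (X → (PresentedGroup (rels : Set (FreeGroup X)) ⧸ H) → ℂ)
      = Fintype.card X * H.index := by
    rw [hidx, Module.finrank_pi_fintype]
    simp
  have e2 : Module.finrank ℂ (rels → (PresentedGroup (rels : Set (FreeGroup X)) ⧸ H) → ℂ)
      = rels.card * H.index := by
    rw [hidx, Module.finrank_pi_fintype]
    simp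
  rw [e1] at h1
  rw [e2] at h2
  omega

end Pool.Agent.R369.GPZD
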