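import Mathlib

/-!
Colourings of smooth numbers: the case n = 8 of the extension question has a negative answer.
The colouring used is periodic up to finitely many exceptional layers in the exponents of
2, 3, 5, 7, and it is stored as the base 8 digits of one natural number.
-/

namespace Pool.Agent.R369.Smooth

/-- Reduction of an exponent to the finite quotient: `e` if `e < A`, else `A + (e - A) % 4`. -/
def red (A e : ℕ) : ℕ := if e < A then e else A + (e - A) % 4

theorem red_add (A e v : ℕ) : red A (e + v) = red A (red A e + v) := by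
  unfold red
  split_ifs <;> omega

theorem red_lt (A e : ℕ) : red A e < A + 4 := by
  unfold red
  split_ifs <;> omega

/-- The table of colours, in base 8. -/
def table : ℕ := 0xf40fa3ba1ec1da35a21d22c4ec23e2345f4dc4dde29eac4afd2bd378354bd4398394cd40f40fa3ba1ec1da35a21d22c4ec23e2345f4c53c58958a57a789b897a97307399a9af06f47747d83d46b45e81e89d887c478be883a43c53c58958a57a789b897a97307399a9af06fb07b0d68dd03d0ee8ef88f97d17748753b1312b10af4a13710a78a60e633533e0de2f52fb07b0d68dd03d0ee8ef88f97d17748753b135e95e6e264f14e56256a6681bc1ea5e81cc1ad1ae07a0dd1de0f60fa2fa90e97627711f15e95e6e264f14e56256a6681bc1ea5e81cc10f40fa3ba1ec1da35a21d22c4ec23e2345f4dc4dde29eac4afd2bd378354bd4398394cd40f40fa3ba1ec1da35a21d32c4e823e3345f0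

/-- The colour at exponents `(a, b, c, d)`. -/
def tbl (a b c d : ℕ) : ℕ :=
  (table >>> (3 * (((red 1 a * 6 + red 2 b) * 4 + red 0 c) * 6 + red 2 d))) % 8 + 1

/-- Exponents of 2, 3, 5, 7 in the numbers 1, ..., 8 (index shifted by one). -/
def ex (i : ℕ) : ℕ × ℕ × ℕ × ℕ :=
  match i with
  | 0 => (0, 0, 0, 0)
  | 1 => (1, 0, 0, 0)
  | 2 => (0, 1, 0, 0)
  | 3 => (2, 0, 0, 0)
  | 4 => (0, 0, 1, 0)
  | 5 => (1, 1, 0, 0)
  | 6 => (0, 0, 0, 1)
  | _ => (3, 0, 0, 0)

/-- The colour at the point shifted by the exponents of `i + 1`. -/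
def tb (a b c d i : ℕ) : ℕ :=
  tbl (a + (ex i).1) (b + (ex i).2.1) (c + (ex i).2.2.1) (d + (ex i).2.2.2)

/-- Boolean check of one point. -/
def ck (a b c d : ℕ) : Bool :=
  (List.range 8).all fun i => (List.range i).all fun j => tb a b c d j != tb a b c d i

set_option maxRecDepth 100000 in
theorem ck_all : ((List.range 5).all fun a => (List.range 6).all fun b =>
    (List.range 4).all fun c => (List.range 6).all fun d => ck a b c d) = true := by
  decide +kernel

theorem tb_red (a b c d i : ℕ) :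
    tb a b c d i = tb (red 1 a) (red 2 b) (red 0 c) (red 2 d) i := by
  unfold tb tbl
  rw [red_add 1 a, red_add 2 b, red_add 0 c, red_add 2 d]

theorem tb_ne (a b c d i j : ℕ) (hj : j < i) (hi : i < 8) :
    tb a b c d j ≠ tb a b c d i := by
  rw [tb_red a b c d i, tb_red a b c d j]
  have h := ck_all
  rw [List.all_eq_true] at h
  have h1 := h (red 1 a) (List.mem_range.2 (red_lt 1 a))
  rw [List.all_eq_true] at h1
  have h2 := h1 (red 2 b) (List.mem_range.2 (red_lt 2 b))
  rw [List.all_eq_true] at h2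
  have h3 := h2 (red 0 c) (List.mem_range.2 (red_lt 0 c))
  rw [List.all_eq_true] at h3
  have h4 := h3 (red 2 d) (List.mem_range.2 (red_lt 2 d))
  unfold ck at h4
  rw [List.all_eq_true] at h4
  have h5 := h4 i (List.mem_range.2 hi)
  rw [List.all_eq_true] at h5
  have h6 := h5 j (List.mem_range.2 hj)
  simpa using h6

theorem tbl_le (a b c d : ℕ) : 1 ≤ tbl a b c d ∧ tbl a b c d ≤ 8 := by
  unfold tbl
  omega

/-- Exponents of a product of powers of 2, 3, 5, 7. -/
theorem fac (a b c d : ℕ) :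
    (2 ^ a * 3 ^ b * 5 ^ c * 7 ^ d).factorization 2 = a ∧
    (2 ^ a * 3 ^ b * 5 ^ c * 7 ^ d).factorization 3 = b ∧
    (2 ^ a * 3 ^ b * 5 ^ c * 7 ^ d).factorization 5 = c ∧
    (2 ^ a * 3 ^ b * 5 ^ c * 7 ^ d).factorization 7 = d := by
  have h2 : Nat.Prime 2 := by norm_num
  have h3 : Nat.Prime 3 := by norm_num
  have h5 : Nat.Prime 5 := by norm_num
  have h7 : Nat.Prime 7 := by norm_num
  rw [Nat.factorization_mul (by positivity) (by positivity),
    Nat.factorization_mul (by positivity) (by positivity),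
    Nat.factorization_mul (by positivity) (by positivity),
    h2.factorization_pow, h3.factorization_pow, h5.factorization_pow, h7.factorization_pow]
  simp

/-- The colouring of the positive rationals given by the exponents of the numerator. -/
noncomputable def col (q : ℚ) : ℕ :=
  tbl (q.num.natAbs.factorization 2) (q.num.natAbs.factorization 3)
    (q.num.natAbs.factorization 5) (q.num.natAbs.factorization 7)

theorem col_nat (m : ℕ) : col (m : ℚ) =
    tbl (m.factorization 2) (m.factorization 3) (m.factorization 5) (m.factorization 7) := by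
  unfold col
  simp

theorem col_prod (a b c d : ℕ) (m : ℕ) (hm : m = 2 ^ a * 3 ^ b * 5 ^ c * 7 ^ d) :
    col (m : ℚ) = tbl a b c d := by
  rw [col_nat, hm]
  obtain ⟨h1, h2, h3, h4⟩ := fac a b c d
  rw [h1, h2, h3, h4]

theorem ex_fac (i : ℕ) (hi : i < 8) :
    i + 1 = 2 ^ (ex i).1 * 3 ^ (ex i).2.1 * 5 ^ (ex i).2.2.1 * 7 ^ (ex i).2.2.2 := by
  interval_cases i <;> simp [ex]

theorem col_mul (i : ℕ) (hi : i < 8) (m : ℕ) (hm : 0 < m) :
    col (((i + 1 : ℕ) : ℚ) * (m : ℚ)) =
      tb (m.factorization 2) (m.factorization 3) (m.factorization 5) (m.factorization 7) i := by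
  rw [← Nat.cast_mul, col_nat, Nat.factorization_mul (by omega) (by omega)]
  obtain ⟨h1, h2, h3, h4⟩ := fac (ex i).1 (ex i).2.1 (ex i).2.2.1 (ex i).2.2.2
  rw [← ex_fac i hi] at h1 h2 h3 h4
  simp only [Finsupp.add_apply]
  rw [h1, h2, h3, h4]
  unfold tb
  rw [add_comm (ex i).1, add_comm (ex i).2.1, add_comm (ex i).2.2.1, add_comm (ex i).2.2.2]

theorem col_ne (i j : ℕ) (hi : 1 ≤ i) (hij : i < j) (hj : j ≤ 8) (m : ℕ) (hm : 0 < m) :
    col ((i : ℚ) * (m : ℚ)) ≠ col ((j : ℚ) * (m : ℚ)) := by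
  obtain ⟨i', rfl⟩ : ∃ i', i = i' + 1 := ⟨i - 1, by omega⟩
  obtain ⟨j', rfl⟩ : ∃ j', j = j' + 1 := ⟨j - 1, by omega⟩
  rw [col_mul i' (by omega) m hm, col_mul j' (by omega) m hm]
  exact tb_ne _ _ _ _ _ _ (by omega) (by omega)

theorem col_one (i : ℕ) (hi : 1 ≤ i) (hi8 : i ≤ 8) : col (i : ℚ) = i := by
  obtain ⟨i', rfl⟩ : ∃ i', i = i' + 1 := ⟨i - 1, by omega⟩
  rw [col_prod _ _ _ _ _ (ex_fac i' (by omega))]
  have : i' < 8 := by omega
  interval_cases i' <;> decide +kernel

theorem col_vals : col 14 = 1 ∧ col 35 = 2 ∧ col 10 = 3 ∧ col 21 = 4 ∧ col 5 = 5 ∧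
    col 20 = 6 ∧ col 7 = 7 ∧ col 70 = 8 := by
  have h14 := col_prod 1 0 0 1 14 (by norm_num)
  have h35 := col_prod 0 0 1 1 35 (by norm_num)
  have h10 := col_prod 1 0 1 0 10 (by norm_num)
  have h21 := col_prod 0 1 0 1 21 (by norm_num)
  have h5 := col_prod 0 0 1 0 5 (by norm_num)
  have h20 := col_prod 2 0 1 0 20 (by norm_num)
  have h7 := col_prod 0 0 0 1 7 (by norm_num)
  have h70 := col_prod 1 0 1 1 70 (by norm_num)
  push_cast at h14 h35 h10 h21 h5 h20 h7 h70
  rw [h14, h35, h10, h21, h5, h20, h7, h70]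
  decide +kernel

end Pool.Agent.R369.Smooth
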