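import Pool.Agent.R684.VG.Stm

set_option autoImplicit false

/-!
# The Baumslag–Solitar group `BS(1,2)` is torsion-free and residually finite
-/

namespace Pool.Agent.R369.VGBS

open Pool.Agent.R684.VG Pool.Agent.H919R3.Grp

/-- The relator `b a b⁻¹ (a a)⁻¹` (`a = false`, `b = true`). -/
def rel : FreeGroup Bool :=
  FreeGroup.of true * FreeGroup.of false * (FreeGroup.of true)⁻¹ *
    (FreeGroup.of false * FreeGroup.of false)⁻¹

/-- `BS(1,2)` -/
abbrev BSg : Type := PresentedGroup ({rel} : Set (FreeGroup Bool))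

/-- the generator `a` -/
def ga : BSg := PresentedGroup.of false

/-- the generator `b` -/
def gb : BSg := PresentedGroup.of true

theorem rel_eq : gb * ga * gb⁻¹ = ga * ga := by
  have h : (PresentedGroup.mk ({rel} : Set (FreeGroup Bool)) rel) = 1 :=
    PresentedGroup.one_of_mem (Set.mem_singleton _)
  unfold rel at h
  rw [map_mul, map_mul, map_mul, map_inv, map_inv, map_mul, mul_inv_eq_one] at h
  exact h

theorem univ (E : Type) [Group E] (x y : E) (h : y * x * y⁻¹ = x * x) :
    ∃ f : BSg →* E, f ga = x ∧ f gb = y := by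
  have hrel : ∀ r ∈ ({rel} : Set (FreeGroup Bool)),
      FreeGroup.lift (fun i : Bool => if i then y else x) r = 1 := by
    intro r hr
    rw [Set.mem_singleton_iff] at hr
    subst hr
    unfold rel
    simp only [map_mul, map_inv, FreeGroup.lift_apply_of, if_true, Bool.false_eq_true, if_false]
    rw [h, mul_inv_cancel]
  refine ⟨PresentedGroup.toGroup hrel, ?_, ?_⟩
  · unfold ga
    rw [PresentedGroup.toGroup.of]
    simp
  · unfold gb
    rw [PresentedGroup.toGroup.of]
    simp

theorem closure_top : Subgroup.closure ({ga, gb} : Set BSg) = ⊤ := by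
  rw [← PresentedGroup.closure_range_of ({rel} : Set (FreeGroup Bool))]
  congr 1
  ext x
  simp only [Set.mem_insert_iff, Set.mem_singleton_iff, Set.mem_range]
  constructor
  · rintro (h | h)
    · exact ⟨false, h.symm⟩
    · exact ⟨true, h.symm⟩
  · rintro ⟨i, hi⟩
    cases i
    · exact Or.inl hi.symm
    · exact Or.inr hi.symm

theorem conj_zpow {G : Type} [Group G] {a b : G} (hr : b * a * b⁻¹ = a * a) (k : ℤ) :
    b * a ^ k = a ^ (2 * k) * b := by
  have h1 : b * a ^ k * b⁻¹ = (b * a * b⁻¹) ^ k := (_root_.conj_zpow).symm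
  rw [hr, ← pow_two, ← zpow_natCast, ← zpow_mul] at h1
  rw [mul_inv_eq_iff_eq_mul] at h1
  exact_mod_cast h1

theorem conj_pow_zpow {G : Type} [Group G] {a b : G} (hr : b * a * b⁻¹ = a * a) (i : ℕ) (k : ℤ) :
    b ^ i * a ^ k = a ^ (2 ^ i * k) * b ^ i := by
  induction i generalizing k with
  | zero => simp
  | succ n ih =>
    rw [pow_succ, mul_assoc, conj_zpow hr, ← mul_assoc, ih, mul_assoc]
    congr 2
    ring

theorem nf {G : Type} [Group G] {a b : G} (hr : b * a * b⁻¹ = a * a)
    (hcl : Subgroup.closure ({a, b} : Set G) = ⊤) (g : G) :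
    ∃ (i j : ℕ) (k : ℤ), g = (b ^ i)⁻¹ * a ^ k * b ^ j := by
  have hg : g ∈ Subgroup.closure ({a, b} : Set G) := by rw [hcl]; trivial
  have key : ∀ (e : ℤ) (i j : ℕ) (k : ℤ), ∃ (i' j' : ℕ) (k' : ℤ),
      a ^ e * ((b ^ i)⁻¹ * a ^ k * b ^ j) = (b ^ i')⁻¹ * a ^ k' * b ^ j' := by
    intro e i j k
    refine ⟨i, j, 2 ^ i * e + k, ?_⟩
    have h1 := conj_pow_zpow hr i e
    have h2 : a ^ e * (b ^ i)⁻¹ = (b ^ i)⁻¹ * a ^ (2 ^ i * e) := by
      rw [eq_inv_mul_iff_mul_eq, ← mul_assoc, h1, mul_inv_cancel_right]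
    rw [← mul_assoc, ← mul_assoc, h2, zpow_add]
    simp only [mul_assoc]
  induction hg using Subgroup.closure_induction_left with
  | one => exact ⟨0, 0, 0, by simp⟩
  | mul_left x hx y hy ih =>
    obtain ⟨i, j, k, rfl⟩ := ih
    rcases hx with rfl | hx
    · obtain ⟨i', j', k', h⟩ := key 1 i j k
      exact ⟨i', j', k', by rw [← h, zpow_one]⟩
    · rw [Set.mem_singleton_iff] at hx
      subst hx
      cases i with
      | zero =>
        refine ⟨0, j + 1, 2 * k, ?_⟩
        simp only [pow_zero, inv_one, one_mul]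
        rw [← mul_assoc, conj_zpow hr, mul_assoc, ← pow_succ']
      | succ n =>
        refine ⟨n, j, k, ?_⟩
        rw [pow_succ]
        group
  | inv_mul_cancel x hx y hy ih =>
    obtain ⟨i, j, k, rfl⟩ := ih
    rcases hx with rfl | hx
    · obtain ⟨i', j', k', h⟩ := key (-1) i j k
      exact ⟨i', j', k', by rw [← h, zpow_neg_one]⟩
    · rw [Set.mem_singleton_iff] at hx
      subst hx
      refine ⟨i + 1, j, k, ?_⟩
      rw [pow_succ, mul_inv_rev]
      simp only [mul_assoc]

theorem mulLeft_pow {R : Type} [CommRing R] (u : Rˣ) (j : ℕ) (x : R) :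
    ((Units.mulLeft u) ^ j : Equiv.Perm R) x = (u : R) ^ j * x := by
  induction j with
  | zero => simp
  | succ n ih =>
    rw [pow_succ', Equiv.Perm.mul_apply, ih, Units.mulLeft_apply, pow_succ']
    ring

theorem addRight_pow {R : Type} [CommRing R] (j : ℕ) (x : R) :
    ((Equiv.addRight (1 : R)) ^ j : Equiv.Perm R) x = x + j := by
  induction j with
  | zero => simp
  | succ n ih =>
    rw [pow_succ', Equiv.Perm.mul_apply, ih, Equiv.coe_addRight]
    push_cast
    ring

theorem addRight_zpow {R : Type} [CommRing R] (k : ℤ) (x : R) :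
    ((Equiv.addRight (1 : R)) ^ k : Equiv.Perm R) x = x + k := by
  obtain ⟨n, rfl | rfl⟩ := Int.eq_nat_or_neg k
  · rw [zpow_natCast, addRight_pow, Int.cast_natCast]
  · rw [zpow_neg, zpow_natCast, Equiv.Perm.inv_eq_iff_eq, addRight_pow]
    simp

theorem affine_rel {R : Type} [CommRing R] (u : Rˣ) (hu : (u : R) = 2) :
    (Units.mulLeft u : Equiv.Perm R) * Equiv.addRight 1 * (Units.mulLeft u)⁻¹
      = Equiv.addRight 1 * Equiv.addRight 1 := by
  rw [mul_inv_eq_iff_eq_mul]
  ext x
  simp only [Equiv.Perm.mul_apply, Units.mulLeft_apply, Equiv.coe_addRight, hu]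
  ring

theorem eval_eq {R : Type} [CommRing R] (u : Rˣ) (f : BSg →* Equiv.Perm R)
    (ha : f ga = Equiv.addRight 1) (hb : f gb = Units.mulLeft u) (i j : ℕ) (k : ℤ) (x : R) :
    (u : R) ^ i * f ((gb ^ i)⁻¹ * ga ^ k * gb ^ j) x = (u : R) ^ j * x + k := by
  have h1 : f gb ^ i * f ((gb ^ i)⁻¹ * ga ^ k * gb ^ j) = f ga ^ k * f gb ^ j := by
    simp only [map_mul, map_inv, map_pow, map_zpow]
    group
  have h2 := congrArg (fun F : Equiv.Perm R => F x) h1
  simp only [Equiv.Perm.mul_apply] at h2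
  rw [hb, ha, mulLeft_pow, mulLeft_pow] at h2
  rw [h2]
  exact addRight_zpow k _

theorem eval_one {R : Type} [CommRing R] (u : Rˣ) (f : BSg →* Equiv.Perm R)
    (ha : f ga = Equiv.addRight 1) (hb : f gb = Units.mulLeft u) (i j : ℕ) (k : ℤ)
    (h : f ((gb ^ i)⁻¹ * ga ^ k * gb ^ j) = 1) : (k : R) = 0 ∧ (u : R) ^ j = (u : R) ^ i := by
  have h0 := eval_eq u f ha hb i j k 0
  have h1 := eval_eq u f ha hb i j k 1
  rw [h] at h0 h1
  simp only [Equiv.Perm.coe_one, id_eq, mul_zero, zero_add, mul_one] at h0 h1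
  refine ⟨h0.symm, ?_⟩
  rw [← h0, add_zero] at h1
  exact h1.symm

theorem two_pow_inj {i j : ℕ} (h : (2 : ℤ) ^ j = 2 ^ i) : i = j := by
  have h' : (2 : ℕ) ^ j = 2 ^ i := by exact_mod_cast h
  exact (Nat.pow_right_injective le_rfl h').symm

theorem strictMono_perm {F : Equiv.Perm ℚ} (hF : StrictMono F) {n : ℕ} (hn : 0 < n)
    (h : F ^ n = 1) : F = 1 := by
  obtain ⟨m, rfl⟩ : ∃ m, n = m + 1 := ⟨n - 1, by omega⟩
  ext x
  rw [Equiv.Perm.one_apply]
  by_contra hne
  have hx : (F ^ (m + 1)) x = x := by rw [h]; rfl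
  rcases lt_or_gt_of_ne hne with hlt | hlt
  · have key : ∀ m : ℕ, (F ^ (m + 1)) x < x := by
      intro m
      induction m with
      | zero => simpa using hlt
      | succ m ih =>
        rw [pow_succ', Equiv.Perm.mul_apply]
        exact lt_trans (hF ih) hlt
    have := key m
    rw [hx] at this
    exact lt_irrefl _ this
  · have key : ∀ m : ℕ, x < (F ^ (m + 1)) x := by
      intro m
      induction m with
      | zero => simpa using hlt
      | succ m ih =>
        rw [pow_succ', Equiv.Perm.mul_apply]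
        exact lt_trans hlt (hF ih)
    have := key m
    rw [hx] at this
    exact lt_irrefl _ this

theorem t_BS : S_BS := by
  -- the affine representation over `ℚ`
  obtain ⟨f, ha, hb⟩ := univ (Equiv.Perm ℚ) (Equiv.addRight 1)
    (Units.mulLeft (Units.mk0 (2 : ℚ) two_ne_zero)) (affine_rel _ rfl)
  have hinj : ∀ g : BSg, f g = 1 → g = 1 := by
    intro g hg
    obtain ⟨i, j, k, rfl⟩ := nf rel_eq closure_top g
    obtain ⟨h1, h2⟩ := eval_one _ f ha hb i j k hg
    have hk : k = 0 := by exact_mod_cast h1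
    have hij : i = j := two_pow_inj (by
      have h2' : (2 : ℚ) ^ j = 2 ^ i := h2
      exact_mod_cast h2')
    subst hk hij
    simp
  refine ⟨BSg, inferInstance, ga, gb, closure_top, rel_eq, ?_, ?_, ?_, ?_⟩
  · intro h
    rw [h, map_one] at ha
    have := congrArg (fun F : Equiv.Perm ℚ => F 0) ha
    simp at this
  · intro g n hn hg
    apply hinj
    apply strictMono_perm _ hn (by rw [← map_pow, hg, map_one])
    obtain ⟨i, j, k, rfl⟩ := nf rel_eq closure_top g
    intro x y hxy
    have hx := eval_eq _ f ha hb i j k x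
    have hy := eval_eq _ f ha hb i j k y
    have h2 : ((Units.mk0 (2 : ℚ) two_ne_zero : ℚˣ) : ℚ) = 2 := rfl
    rw [h2] at hx hy
    have hi : (0 : ℚ) < 2 ^ i := by positivity
    have hj : (0 : ℚ) < 2 ^ j := by positivity
    have h3 : (2 : ℚ) ^ j * x < 2 ^ j * y := mul_lt_mul_of_pos_left hxy hj
    have h4 : (2 : ℚ) ^ i * f ((gb ^ i)⁻¹ * ga ^ k * gb ^ j) x
        < 2 ^ i * f ((gb ^ i)⁻¹ * ga ^ k * gb ^ j) y := by
      rw [hx, hy]; linarith
    exact lt_of_mul_lt_mul_left h4 hi.le
  · apply ResFin.of_homs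
    intro g hg
    obtain ⟨i, j, k, rfl⟩ := nf rel_eq closure_top g
    obtain ⟨m, hm⟩ : ∃ m : ℕ, m = 2 * (k.natAbs + 2 ^ i + 2 ^ j) + 1 := ⟨_, rfl⟩
    have : NeZero m := ⟨by omega⟩
    have hcop : Nat.Coprime 2 m := by
      rw [Nat.coprime_two_left]
      exact ⟨_, hm⟩
    obtain ⟨f', ha', hb'⟩ := univ (Equiv.Perm (ZMod m)) (Equiv.addRight 1)
      (Units.mulLeft (ZMod.unitOfCoprime 2 hcop)) (affine_rel _ (by simp))
    refine ⟨Equiv.Perm (ZMod m), inferInstance, f', ResFin.of_finite, ?_⟩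
    intro h
    obtain ⟨h1, h2⟩ := eval_one _ f' ha' hb' i j k h
    apply hg
    have hk : k = 0 := by
      rw [ZMod.intCast_zmod_eq_zero_iff_dvd] at h1
      apply Int.eq_zero_of_abs_lt_dvd h1
      rw [Int.abs_eq_natAbs]
      have := Nat.pow_pos (n := i) (show 0 < 2 by norm_num)
      have := Nat.pow_pos (n := j) (show 0 < 2 by norm_num)
      omega
    have hij : i = j := by
      apply two_pow_inj
      have h3 : (((2 : ℤ) ^ j - 2 ^ i : ℤ) : ZMod m) = 0 := by
        push_cast
        rw [sub_eq_zero]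
        simpa using h2
      rw [ZMod.intCast_zmod_eq_zero_iff_dvd] at h3
      have hi : (0 : ℤ) < 2 ^ i := by positivity
      have hj : (0 : ℤ) < 2 ^ j := by positivity
      have h4 : (2 : ℤ) ^ j - 2 ^ i = 0 := by
        apply Int.eq_zero_of_abs_lt_dvd h3
        rw [abs_lt]
        have hm' : (m : ℤ) = 2 * (k.natAbs + 2 ^ i + 2 ^ j) + 1 := by
          rw [hm]; push_cast; rfl
        have h0 : (0 : ℤ) ≤ k.natAbs := by positivity
        constructor <;> linarith
      linarith
    subst hk hij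
    simp
  · intro E _ x y h
    exact univ E x y h

end Pool.Agent.R369.VGBS
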